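import Pool.Agent.X116.TzH

/-!
# MP_119a45_an, Question 1: zero products of Toeplitz operators with a radial symbol on `A²_n`

Definitions (all in `Pool.Agent.X116.Tz`):

* `dA` is the normalised area measure `π⁻¹ • volume.restrict (Metric.ball 0 1)` on the unit disc;
* `L2` is Mathlib's Hilbert space `Lp ℂ 2 dA` (under a short name) and `h.fn` is the function of
  `h : L2`; `Linf f` is `MemLp f ⊤ dA`;
* `IsPolyanalytic n h` : there are functions `H j` (`j < n`), holomorphic on the unit disc, with
  `h(z) = ∑_{j<n} conj(z)^j H_j(z)` for almost every `z` of the disc (this is the general solution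
  of `∂ⁿh/∂z̄ⁿ = 0`);
* `Bergman n` is the closure in `L²(dA)` of the subspace `polyL2 n` of the `h ∈ L²(dA)` that are
  polyanalytic of order `n` (that subspace is closed; the closure is taken only to have the
  orthogonal projection at hand);
* `mulL2 f hf h` is the product `f h` in `L²(dA)`, for `f` essentially bounded;
* `toeplitz n f hf h = P_n (f h)` with `P_n = proj n` the orthogonal projection of `L²(dA)` onto
  `Bergman n`;
* `Radial f` : `f(z) = φ(|z|)` for almost every `z`, for some function `φ`;
* `AEq f g` : `f = g` almost everywhere on the disc.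
-/

set_option autoImplicit false

namespace Pool.Agent.Results.MP_119a45_an.ZeroProducts

open Pool.Agent.X116.Tz

/-- **Zero products with a radial symbol on polyanalytic Bergman spaces.** Let `n ≥ 1` and let
`f, g` be essentially bounded functions on the unit disc at least one of which is radial. If
`T_f T_g = 0` on the polyanalytic Bergman space `A²_n`, then `f = 0` or `g = 0` almost
everywhere. -/
theorem result (n : ℕ) (hn : 1 ≤ n) (f g : ℂ → ℂ) (hf : Linf f) (hg : Linf g)
    (hr : Radial f ∨ Radial g)
    (h0 : ∀ h ∈ Bergman n, toeplitz n f hf (toeplitz n g hg h) = 0) :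
    AEq f 0 ∨ AEq g 0 :=
  zero_product' hn hf hg hr h0

end Pool.Agent.Results.MP_119a45_an.ZeroProducts
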